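import Pool.Agent.H88.OCS.Stmts
import Pool.Agent.H14.OC.Qnt
import Pool.Agent.H87.SLO.Gen

/-!
# OCS, row QNS: the label of a pair
-/

set_option autoImplicit false

namespace Pool.OCS

open Finset Real
open Pool.Agent.H49.Ent Pool.Agent.H32.Dense Pool.STK Pool.KAF
open Pool.OC.QNT (Pr_mono' Pr_nonneg' markov')

variable {d : Dat}

theorem qns_sg_le {A : ℕ} (hd : d.OK A) (w : d.Om × d.Om) : ‖d.sg w‖ ≤ 2 := by
  rw [pi_norm_le_iff_of_nonneg (by norm_num)]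
  intro j
  rw [Real.norm_eq_abs]
  unfold Dat.sg
  refine (abs_sub _ _).trans ?_
  have h1 := hd.hS (d.T w.1) j
  have h2 := hd.hS (d.T w.2) j
  linarith

theorem qns_ch_norm (w : d.Om × d.Om) : ‖d.ch w‖ = ‖d.sg w‖ / |d.ta w| := by
  have h : d.ch w = (d.ta w)⁻¹ • d.sg w := by
    funext j
    unfold Dat.ch
    rw [Pi.smul_apply, smul_eq_mul]
    ring
  rw [h, norm_smul, Real.norm_eq_abs, abs_inv]
  ring

theorem qns_ch_le {A : ℕ} (hd : d.OK A) {n : ℕ} {w : d.Om × d.Om}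
    (hw : (2 : ℝ) ^ (-(3 * n : ℤ)) ≤ |d.ta w|) : ‖d.ch w‖ ≤ 2 * (2 : ℝ) ^ (3 * n : ℤ) := by
  have h0 : (0 : ℝ) < (2 : ℝ) ^ (-(3 * n : ℤ)) := by positivity
  have h1 : 0 < |d.ta w| := lt_of_lt_of_le h0 hw
  rw [qns_ch_norm, div_le_iff₀ h1]
  have h2 := qns_sg_le hd w
  have h3 : (2 : ℝ) * 2 ^ (3 * n : ℤ) * (2 : ℝ) ^ (-(3 * n : ℤ)) = 2 := by
    rw [mul_assoc, ← zpow_add₀ (by norm_num)]
    simp
  have h4 : (2 : ℝ) * 2 ^ (3 * n : ℤ) * (2 : ℝ) ^ (-(3 * n : ℤ)) ≤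
      2 * (2 : ℝ) ^ (3 * n : ℤ) * |d.ta w| := mul_le_mul_of_nonneg_left hw (by positivity)
  linarith

/-- The far partners depend only on the line and on the two times. -/
theorem qns_fs_congr {w w' : d.Om × d.Om} (h1 : d.L w.1 = d.L w'.1) (h2 : d.T w.1 = d.T w'.1)
    (h3 : d.T w.2 = d.T w'.2) (i₀ n : ℕ) (a : ℝ) : d.fs i₀ n w a = d.fs i₀ n w' a := by
  have e1 : ∀ i, d.Ti i w.1 = d.Ti i w'.1 := by
    intro i
    unfold Dat.Ti
    rw [h2]
  have e2 : ∀ ω, d.ch (w.1, ω) = d.ch (w'.1, ω) := by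
    intro ω
    funext r
    unfold Dat.ch Dat.sg Dat.ta
    simp only [h2]
  have e3 : d.ch w = d.ch w' := by
    funext r
    unfold Dat.ch Dat.sg Dat.ta
    rw [h2, h3]
  unfold Dat.fs
  refine Finset.sum_congr rfl fun i _ => ?_
  rw [h1, e1 i, e3]
  have e4 : {ω | a < ‖d.ch (w.1, ω) - d.ch w'‖} = {ω | a < ‖d.ch (w'.1, ω) - d.ch w'‖} := by
    ext ω
    show a < ‖d.ch (w.1, ω) - d.ch w'‖ ↔ a < ‖d.ch (w'.1, ω) - d.ch w'‖
    rw [e2 ω]
  rw [e4]

/-- **QNS**: the label of the pairs. -/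
theorem qns_thm : QNSStmt := by
  classical
  intro d A n i₀ j k₆ lam m d₁ ε hOK hn hd₁ hd1 hi₀ hj hk₆ hm1 hm2 hti
  have hP := hOK.law.nonneg
  have hQ : ∀ i w, 0 ≤ d.Qp i w := fun i w => dbl_nonneg hP w
  have hn' : (0 : ℝ) < n := by exact_mod_cast hn
  have hε : 0 ≤ ε := (Pr_nonneg' (hQ j) _).trans (hti j hj)
  set F : d.Om × d.Om → Finset ℤ := fun w =>
    (Finset.Icc (-(8 * n : ℤ)) (m + i₀ - (k₆ + lam : ℕ))).filter
      fun l => d.fs i₀ n w ((2 : ℝ) ^ (1 - l)) ≤ d₁ * n with hF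
  set mu : d.Om × d.Om → ℤ := fun w =>
    if h : (F w).Nonempty then (F w).max' h else -(8 * n : ℤ) with hmu
  have hmem : ∀ w, (F w).Nonempty → mu w ∈ F w := by
    intro w h
    simp only [hmu]
    rw [dif_pos h]
    exact Finset.max'_mem _ h
  have hrange : ∀ w, -(8 * n : ℤ) ≤ mu w ∧ mu w ≤ m + i₀ - (k₆ + lam : ℕ) := by
    intro w
    by_cases h : (F w).Nonempty
    · have h1 := (Finset.mem_filter.mp (hmem w h)).1
      exact Finset.mem_Icc.mp h1
    · simp only [hmu]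
      rw [dif_neg h]
      constructor
      · exact le_rfl
      · omega
  refine ⟨mu, ⟨?_, fun w => (hrange w).1, fun w => by have := (hrange w).2; omega⟩, ?_, ?_⟩
  · -- the label
    intro w w' h1 h2 h3
    have h4 : F w = F w' := by
      simp only [hF]
      refine Finset.filter_congr fun l _ => ?_
      rw [qns_fs_congr h1 h2 h3]
    simp only [hmu, h4]
  · -- pairs without any good level
    set f : d.Om → ℝ := fun ω => ∑ i ∈ Ico i₀ (2 * n),
      Pr (cond d.P (fun ω => (d.L ω, d.Ti i ω)) (d.L ω, d.Ti i ω))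
        {ω' | |d.ta (ω, ω')| < (2 : ℝ) ^ (-(3 * n : ℤ))} with hf
    have hf0 : ∀ ω, 0 ≤ f ω := fun ω => Finset.sum_nonneg fun i _ =>
      Pr_nonneg' (fun w => cond_nonneg hP _ _ w) _
    have h1 : Pr (d.Qp j) {w | d₁ * n < d.fs i₀ n w ((2 : ℝ) ^ (1 - mu w))} ≤
        Pr (d.Qp j) ({w | |d.ta w| < (2 : ℝ) ^ (-(3 * n : ℤ))} ∪ {w | d₁ * n < f w.1}) := by
      refine Pr_mono' (hQ j) fun w _ hw => ?_
      by_cases hs : |d.ta w| < (2 : ℝ) ^ (-(3 * n : ℤ))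
      · exact Or.inl hs
      refine Or.inr ?_
      have h2 : d₁ * n < d.fs i₀ n w ((2 : ℝ) ^ (1 - mu w)) := hw
      have h3 : ¬ (F w).Nonempty := by
        intro h4
        have h5 := (Finset.mem_filter.mp (hmem _ h4)).2
        exact absurd h2 (not_lt.mpr h5)
      have h4 : mu w = -(8 * n : ℤ) := by
        simp only [hmu]
        rw [dif_neg h3]
      rw [h4] at h2
      refine lt_of_lt_of_le h2 ?_
      show d.fs i₀ n w ((2 : ℝ) ^ (1 - -(8 * n : ℤ))) ≤ f w.1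
      unfold Dat.fs
      simp only [hf]
      refine Finset.sum_le_sum fun i _ => ?_
      refine Pr_mono' (fun w => cond_nonneg hP _ _ w) fun ω _ hω => ?_
      have h5 : (2 : ℝ) ^ (1 - -(8 * n : ℤ)) < ‖d.ch (w.1, ω) - d.ch w‖ := hω
      show |d.ta (w.1, ω)| < (2 : ℝ) ^ (-(3 * n : ℤ))
      by_contra hno
      have h6 := qns_ch_le hOK (not_lt.mp hno)
      have h7 := qns_ch_le hOK (not_lt.mp hs)
      have h8 := norm_sub_le (d.ch (w.1, ω)) (d.ch w)
      have h9 : (2 : ℝ) * 2 ^ (3 * n : ℤ) + 2 * 2 ^ (3 * n : ℤ) = 2 ^ (3 * n + 2 : ℤ) := by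
        rw [zpow_add₀ (by norm_num)]
        norm_num
        ring
      have h10 : (2 : ℝ) ^ (3 * n + 2 : ℤ) ≤ (2 : ℝ) ^ (1 - -(8 * n : ℤ)) :=
        zpow_le_zpow_right₀ (by norm_num) (by omega)
      linarith
    have h2 := Pool.KAF.Pr_union_le (hQ j) {w | |d.ta w| < (2 : ℝ) ^ (-(3 * n : ℤ))}
      {w | d₁ * n < f w.1}
    have h3 := hti j hj
    have h4 : Pr (d.Qp j) {w | d₁ * n < f w.1} = Pr d.P {ω | d₁ * n < f ω} :=
      (dbl_fst (b := fun ω => (d.L ω, d.Ti j ω)) hP).law (fun ω => ω ∈ {ω | d₁ * n < f ω}) True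
    have h5 := markov' hP hf0 (d₁ * n)
    have h6 : ∑ ω, d.P ω * f ω ≤ 2 * n * ε := by
      have e1 : ∀ i ∈ Ico i₀ (2 * n), ∑ ω, d.P ω *
          Pr (cond d.P (fun ω => (d.L ω, d.Ti i ω)) (d.L ω, d.Ti i ω))
            {ω' | |d.ta (ω, ω')| < (2 : ℝ) ^ (-(3 * n : ℤ))} ≤ ε := by
        intro i hi
        have e2 := Pool.SLO.pr_dbl d.P (fun ω => (d.L ω, d.Ti i ω))
          {w | |d.ta w| < (2 : ℝ) ^ (-(3 * n : ℤ))}
        have e3 := hti i (Finset.mem_Ico.mp hi).2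
        unfold Dat.Qp at e3
        rw [e2] at e3
        exact e3
      calc ∑ ω, d.P ω * f ω = ∑ i ∈ Ico i₀ (2 * n), ∑ ω, d.P ω *
          Pr (cond d.P (fun ω => (d.L ω, d.Ti i ω)) (d.L ω, d.Ti i ω))
            {ω' | |d.ta (ω, ω')| < (2 : ℝ) ^ (-(3 * n : ℤ))} := by
            rw [Finset.sum_comm]
            refine Finset.sum_congr rfl fun ω _ => ?_
            simp only [hf]
            rw [Finset.mul_sum]
        _ ≤ ∑ i ∈ Ico i₀ (2 * n), ε := Finset.sum_le_sum e1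
        _ = ((2 * n - i₀ : ℕ) : ℝ) * ε := by
            rw [Finset.sum_const, Nat.card_Ico, nsmul_eq_mul]
        _ ≤ 2 * n * ε := by
            refine mul_le_mul_of_nonneg_right ?_ hε
            have : ((2 * n - i₀ : ℕ) : ℝ) ≤ ((2 * n : ℕ) : ℝ) := by
              exact_mod_cast Nat.sub_le _ _
            push_cast at this
            exact this
    have h7 : Pr d.P {ω | d₁ * n < f ω} ≤ 2 * ε / d₁ := by
      rw [le_div_iff₀ hd₁]
      have h4 : d₁ * n * Pr d.P {ω | d₁ * n < f ω} ≤ 2 * n * ε := h5.trans h6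
      have h5 : n * (Pr d.P {ω | d₁ * n < f ω} * d₁) ≤ n * (2 * ε) := by linarith
      exact le_of_mul_le_mul_left h5 hn'
    have h8 : ε ≤ ε / d₁ := by
      rw [le_div_iff₀ hd₁]
      exact mul_le_of_le_one_right hε hd1
    have h9 : 4 * ε / d₁ = ε / d₁ + 2 * ε / d₁ + ε / d₁ := by ring
    have h10 : 0 ≤ ε / d₁ := by positivity
    linarith
  · -- maximality
    intro w _ hlt
    by_contra hno
    push Not at hno
    have h1 : mu w + 1 ∈ F w := by
      refine Finset.mem_filter.mpr ⟨Finset.mem_Icc.mpr ⟨?_, ?_⟩, ?_⟩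
      · have := (hrange w).1
        omega
      · omega
      · have e1 : 1 - (mu w + 1) = -mu w := by ring
        rw [e1]
        exact hno
    have h2 : (F w).Nonempty := ⟨_, h1⟩
    have h3 : mu w + 1 ≤ mu w := by
      conv_rhs => rw [hmu]
      simp only
      rw [dif_pos h2]
      exact Finset.le_max' _ _ h1
    omega

end Pool.OCS
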